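import Mathlib
import Pool.Agent.H410R4.PCh

set_option autoImplicit false

namespace Pool.Agent.Results.MP_d639b3_nt.ExplicitPureCubics

/-- `Ω_P(n)`: the number of prime factors of `n` that lie in the set `P`, counted with
multiplicity. -/
noncomputable def OmegaIn (P : Set ℕ) (n : ℕ) : ℕ := by
  classical exact (n.primeFactorsList.filter (fun p => p ∈ P)).length

/-- **Explicit irreducible cubics at which Liouville's function changes sign infinitely often.**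
For every set `P` of natural numbers containing `2` (for example all of them: `Ω_P = Ω`, first
part) there is a sign `s = ±1` such that for every `e ≥ 1` the polynomial
`f(T) = T³ + s · 3456 · e³` (`3456 = 2 · 12³`) has infinitely many positive integers `m` with
`Ω_P(|f(m)|)` even and infinitely many with `Ω_P(|f(m)|)` odd. -/
theorem result :
    (∃ s : ℤ, (s = 1 ∨ s = -1) ∧ ∀ e : ℕ, 0 < e →
      {m : ℕ | 0 < m ∧ (-1 : ℤ) ^ (ArithmeticFunction.cardFactors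
        ((m : ℤ) ^ 3 + s * 3456 * (e : ℤ) ^ 3).natAbs) = 1}.Infinite ∧
      {m : ℕ | 0 < m ∧ (-1 : ℤ) ^ (ArithmeticFunction.cardFactors
        ((m : ℤ) ^ 3 + s * 3456 * (e : ℤ) ^ 3).natAbs) = -1}.Infinite) ∧
    ∀ P : Set ℕ, 2 ∈ P → ∃ s : ℤ, (s = 1 ∨ s = -1) ∧ ∀ e : ℕ, 0 < e →
      {m : ℕ | 0 < m ∧ Even (OmegaIn P ((m : ℤ) ^ 3 + s * 3456 * (e : ℤ) ^ 3).natAbs)}.Infinite ∧
      {m : ℕ | 0 < m ∧ Odd (OmegaIn P ((m : ℤ) ^ 3 + s * 3456 * (e : ℤ) ^ 3).natAbs)}.Infinite := by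
  have pos : ∀ s : Set ℕ, s.Infinite → {m : ℕ | 0 < m ∧ m ∈ s}.Infinite := by
    intro s hs
    have h := hs.sdiff (Set.finite_singleton 0)
    refine h.mono ?_
    intro m hm
    exact ⟨Nat.pos_of_ne_zero (fun h0 => hm.2 (by simp [h0])), hm.1⟩
  have hP : ∀ P : Set ℕ, 2 ∈ P → ∃ s : ℤ, (s = 1 ∨ s = -1) ∧ ∀ e : ℕ, 0 < e →
      {m : ℕ | 0 < m ∧ Even (OmegaIn P ((m : ℤ) ^ 3 + s * 3456 * (e : ℤ) ^ 3).natAbs)}.Infinite ∧
      {m : ℕ | 0 < m ∧ Odd (OmegaIn P ((m : ℤ) ^ 3 + s * 3456 * (e : ℤ) ^ 3).natAbs)}.Infinite := by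
    intro P h2
    obtain ⟨s, hs, h⟩ := Pool.Agent.H410R4.PC.main_3456 P h2
    refine ⟨s, hs, fun e he => ⟨?_, ?_⟩⟩
    · exact pos _ (h e he).1
    · exact pos _ (h e he).2
  refine ⟨?_, hP⟩
  obtain ⟨s, hs, h⟩ := hP Set.univ (Set.mem_univ _)
  have hO : ∀ n : ℕ, OmegaIn Set.univ n = ArithmeticFunction.cardFactors n := by
    intro n
    classical
    unfold OmegaIn
    rw [ArithmeticFunction.cardFactors_apply]
    simp
  refine ⟨s, hs, fun e he => ⟨?_, ?_⟩⟩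
  · refine (h e he).1.mono ?_
    rintro m ⟨hm, hm'⟩
    refine ⟨hm, ?_⟩
    rw [hO] at hm'
    exact hm'.neg_one_pow
  · refine (h e he).2.mono ?_
    rintro m ⟨hm, hm'⟩
    refine ⟨hm, ?_⟩
    rw [hO] at hm'
    exact hm'.neg_one_pow

end Pool.Agent.Results.MP_d639b3_nt.ExplicitPureCubics
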