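import Pool.Agent.H974R3.Thin

/-!
Chowla's conjecture for almost all polynomials `a + R(X) ± d X^j` in thin two parameter boxes:
`R` is an arbitrary fixed polynomial, only `a` and `d` vary, and the number of pairs `(a, d)` exceeds
the size `x` of the values only by a power of `log x`.
-/

set_option autoImplicit false

namespace Pool.Agent.Results.MP_d639b3_nt.ThinBoxes

open Finset Polynomial Filter

/-- Liouville's function on the integers: `λ(k) = (-1)^Ω(|k|)` for `k ≠ 0`, `λ(0) = 0`. -/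
def lam (k : ℤ) : ℤ := if k = 0 then 0 else (-1) ^ ArithmeticFunction.cardFactors k.natAbs

/-- the integer polynomial `a + R + σ d X^j` -/
noncomputable def poly (R : ℤ[X]) (j : ℕ) (σ : ℤ) (a d : ℕ) : ℤ[X] :=
  C (a : ℤ) + R + C (σ * (d : ℤ)) * X ^ j

/-- `∑ λ(f(n))` over `1 ≤ n ≤ M` -/
noncomputable def liouvilleSum (f : ℤ[X]) (M : ℕ) : ℤ := ∑ n ∈ Icc 1 M, lam (f.eval (n : ℤ))

/-- `∑ μ(|f(n)|)` over `1 ≤ n ≤ M` -/
noncomputable def moebiusSum (f : ℤ[X]) (M : ℕ) : ℤ :=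
  ∑ n ∈ Icc 1 M, ArithmeticFunction.moebius (f.eval (n : ℤ)).natAbs

/-- the Liouville function as a complex valued function with value `0` at `0` -/
noncomputable def gl (n : ℕ) : ℂ := if n = 0 then 0 else (-1) ^ ArithmeticFunction.cardFactors n

lemma gl_norm (n : ℕ) : ‖gl n‖ ≤ 1 := by
  unfold gl
  split_ifs
  · simp
  · rw [norm_pow, norm_neg, norm_one, one_pow]

lemma gl_sup : Pool.Agent.H373R2.T7.SupSmall gl := by
  intro U
  obtain ⟨N0, h⟩ := Pool.Agent.H373R2.T7.sup_liou U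
  refine ⟨N0, fun N hN α => le_trans (le_of_eq ?_) (h N hN α)⟩
  congr 1
  refine sum_congr rfl fun n hn => ?_
  rw [mem_Icc] at hn
  unfold gl Pool.Agent.H373R2.T7.liR
  rw [if_neg (by omega)]

lemma ss_gl (f : ℤ[X]) (M : ℕ) :
    ‖Pool.Agent.H974R3.Thin.ss gl f M‖ = |((liouvilleSum f M : ℤ) : ℝ)| := by
  unfold Pool.Agent.H974R3.Thin.ss liouvilleSum
  rw [← Complex.norm_intCast]
  congr 1
  push_cast
  refine sum_congr rfl fun k _ => ?_
  unfold gl lam
  by_cases h : f.eval (k : ℤ) = 0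
  · rw [h]; simp
  · rw [if_neg (by omega), if_neg h]
    push_cast
    rfl

lemma ss_mu (f : ℤ[X]) (M : ℕ) :
    ‖Pool.Agent.H974R3.Thin.ss Pool.Agent.H373R2.T7.muC f M‖ =
      |((moebiusSum f M : ℤ) : ℝ)| := by
  unfold Pool.Agent.H974R3.Thin.ss moebiusSum
  rw [← Complex.norm_intCast]
  congr 1
  push_cast
  rfl

open Classical in
/-- **Chowla's conjecture for almost all polynomials in thin two parameter boxes.** Let `j ≥ 1`,
`ε > 0` and `E`, `U` be given, and let `B` and `x` be large. Let `R` be **any** fixed integer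
polynomial with `|R(k)| ≤ K^j / (log x)^B` for `1 ≤ k ≤ K`, and consider the polynomials
`F = a + R(X) + σ d X^j` with `a ∈ (a0, a0 + A]`, `d ∈ (D, 2D]`, whose values on `[1, K]` are at most
`x` (box condition), where `x ≤ D K^j (log x)^E`, `K ≥ x^ε` and where the number `A D` of the
polynomials is at least `x (log x)^B`. Then for all but at most `A D / (log x)^U` of them the sums of
`λ(F(n))` and of `μ(|F(n)|)` over `n ≤ M` are both at most `K / (log x)^U` in absolute value, for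
**all** `M ≤ K` simultaneously. -/
theorem result (j : ℕ) (hj : 1 ≤ j) (ε : ℝ) (hε : 0 < ε) (E U : ℕ) :
    ∃ B x0 : ℕ, ∀ x : ℕ, x0 ≤ x → ∀ (K D A a0 : ℕ) (R : ℤ[X]) (σ : ℤ),
    ((σ = 1 ∧ a0 + A + 2 * D * K ^ j + K ^ j ≤ x) ∨
      (σ = -1 ∧ 2 * D * K ^ j + K ^ j ≤ a0 ∧ a0 + A + K ^ j ≤ x)) →
    (x : ℝ) ≤ D * (K : ℝ) ^ j * Real.log x ^ E → (x : ℝ) ^ ε ≤ K →
    x * Real.log x ^ B ≤ (A : ℝ) * D →
    (∀ k ∈ Icc 1 K, |((R.eval (k : ℤ) : ℤ) : ℝ)| ≤ (K : ℝ) ^ j / Real.log x ^ B) →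
    ((((Ioc a0 (a0 + A)) ×ˢ (Ioc D (2 * D))).filter (fun ad : ℕ × ℕ => ∃ M : ℕ, M ≤ K ∧
      (K / Real.log x ^ U < |((liouvilleSum (poly R j σ ad.1 ad.2) M : ℤ) : ℝ)| ∨
        K / Real.log x ^ U < |((moebiusSum (poly R j σ ad.1 ad.2) M : ℤ) : ℝ)|))).card : ℝ) ≤
      A * D / Real.log x ^ U := by
  obtain ⟨B1, x1, e1⟩ := Pool.Agent.H974R3.Thin.exc gl gl_norm gl_sup j hj ε hε E (U + 1)
  obtain ⟨B2, x2, e2⟩ := Pool.Agent.H974R3.Thin.exc Pool.Agent.H373R2.T7.muC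
    Pool.Agent.H373R2.T7.muC_norm Pool.Agent.H373R2.T7.sup_muC j hj ε hε E (U + 1)
  have hev : ∀ᶠ x : ℕ in atTop, x1 ≤ x ∧ x2 ≤ x ∧ 2 ≤ Real.log x := by
    filter_upwards [eventually_ge_atTop x1, eventually_ge_atTop x2,
      Pool.Agent.H442R2.EHI.evt_log_ge 2] with x a b c
    exact ⟨a, b, c⟩
  obtain ⟨x0, hx0⟩ := eventually_atTop.mp hev
  refine ⟨max B1 B2, x0, fun x hx K D A a0 R σ hbox hxDK hxK hAD hR => ?_⟩
  obtain ⟨hx1, hx2, hL⟩ := hx0 x hx
  have f1 := e1 x hx1 K D A a0 R σ hbox hxDK hxK (by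
    refine le_trans ?_ hAD
    gcongr
    · linarith
    · exact le_max_left _ _) (by
    intro k hk
    refine (hR k hk).trans ?_
    apply div_le_div_of_nonneg_left (by positivity) (by positivity)
    exact pow_le_pow_right₀ (by linarith) (le_max_left _ _))
  have f2 := e2 x hx2 K D A a0 R σ hbox hxDK hxK (by
    refine le_trans ?_ hAD
    gcongr
    · linarith
    · exact le_max_right _ _) (by
    intro k hk
    refine (hR k hk).trans ?_
    apply div_le_div_of_nonneg_left (by positivity) (by positivity)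
    exact pow_le_pow_right₀ (by linarith) (le_max_right _ _))
  set L := Real.log x with hLdef
  have hL0 : 0 < L := by linarith
  have hcmp : ∀ t : ℝ, (K : ℝ) / L ^ U < t → (K : ℝ) / L ^ (U + 1) < t := by
    intro t ht
    refine lt_of_le_of_lt ?_ ht
    apply div_le_div_of_nonneg_left (Nat.cast_nonneg _) (by positivity)
    exact pow_le_pow_right₀ (by linarith) (by omega)
  set P := (Ioc a0 (a0 + A)) ×ˢ (Ioc D (2 * D)) with hP
  have hsub : P.filter (fun ad : ℕ × ℕ => ∃ M : ℕ, M ≤ K ∧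
      (K / L ^ U < |((liouvilleSum (poly R j σ ad.1 ad.2) M : ℤ) : ℝ)| ∨
        K / L ^ U < |((moebiusSum (poly R j σ ad.1 ad.2) M : ℤ) : ℝ)|)) ⊆
      P.filter (fun ad : ℕ × ℕ => ∃ M : ℕ, M ≤ K ∧ K / L ^ (U + 1) <
        ‖Pool.Agent.H974R3.Thin.ss gl (Pool.Agent.H300R2.BH.FF R j σ ad.1 ad.2) M‖) ∪
      P.filter (fun ad : ℕ × ℕ => ∃ M : ℕ, M ≤ K ∧ K / L ^ (U + 1) <
        ‖Pool.Agent.H974R3.Thin.ss Pool.Agent.H373R2.T7.muC
          (Pool.Agent.H300R2.BH.FF R j σ ad.1 ad.2) M‖) := by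
    intro ad had
    rw [mem_filter] at had
    obtain ⟨hadP, M, hMK, h | h⟩ := had
    · rw [mem_union]
      left
      rw [mem_filter]
      refine ⟨hadP, M, hMK, ?_⟩
      rw [ss_gl]
      exact hcmp _ h
    · rw [mem_union]
      right
      rw [mem_filter]
      refine ⟨hadP, M, hMK, ?_⟩
      rw [ss_mu]
      exact hcmp _ h
  have hcard := (card_le_card hsub).trans (card_union_le _ _)
  have hcard' : ((P.filter (fun ad : ℕ × ℕ => ∃ M : ℕ, M ≤ K ∧
      (K / L ^ U < |((liouvilleSum (poly R j σ ad.1 ad.2) M : ℤ) : ℝ)| ∨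
        K / L ^ U < |((moebiusSum (poly R j σ ad.1 ad.2) M : ℤ) : ℝ)|))).card : ℝ) ≤
      A * D / L ^ (U + 1) + A * D / L ^ (U + 1) := by
    refine le_trans (by exact_mod_cast hcard) (add_le_add f1 f2)
  refine hcard'.trans ?_
  have h3 : (A:ℝ) * D / L ^ (U + 1) + A * D / L ^ (U + 1) = (A * D / L ^ U) * (2 / L) := by
    rw [pow_succ]
    field_simp
    ring
  rw [h3]
  have h4 : 2 / L ≤ 1 := by rw [div_le_one hL0]; exact hL
  have h5 : (0:ℝ) ≤ A * D / L ^ U := by positivity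
  nlinarith

end Pool.Agent.Results.MP_d639b3_nt.ThinBoxes
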